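import Pool.Agent.H9.ASC.Sl
import Pool.Agent.H9.ASC.Pow

/-!
# MP_10ded2_lc: the least almost strongly compact cardinal and `ω₁`-strong compactness

Let `κ` be almost strongly compact and the least `ω₁`-strongly compact cardinal.

(a) `κ` is `κ`-Mahlo (in particular inaccessible, Mahlo).
(b) Let `δ < κ`.  Fewer than `δ` stationary subsets of `κ`, whose points have cofinalities without
`δ`-complete uniform ultrafilter, reflect simultaneously: they are all stationary in `χ` for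
stationarily many inaccessible cardinals `χ < κ` without `δ`-complete uniform ultrafilter.
(c) If `κ` is not strongly compact (a negative answer to Q1) then `κ` is not measurable, every
uniform ultrafilter on `κ` is `ν`-decomposable for unboundedly many `ν < κ`, and there is a club `C`
of strong limit cardinals below `κ` such that `2 ^ χ > χ^{+χ}` for every `χ ∈ C` which is singular
or carries, for some `δ < χ`, no `δ`-complete uniform ultrafilter.

Definitions (in `Pool.Agent.H85.ASC.Basic`, `Setup`, `Club`, `Pool.Agent.H9.ASC.Stat`, `Mahlo`):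
* `SC δ κ`: every `κ`-complete proper filter on a set extends to a `δ`-complete ultrafilter;
* `AlmostSC κ`: `ℵ₁ < κ` and `SC δ κ` for all `ℵ₁ ≤ δ < κ`;
* `Uni δ χ`: there is a `δ`-complete ultrafilter on `χ` containing all final segments;
* `Dec W ν`: some map into a set of size `ν` has no set of size `< ν` with preimage in `W`;
* `IsMeasurable κ`: `κ` is uncountable and carries a `κ`-complete nonprincipal ultrafilter;
* `ClubBelow C κ`: `C` is a closed unbounded set of cardinals below `κ`;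
* `Stat T α`: the set of ordinals `T` is stationary in `α` (Mathlib's `IsStationary` in `Iio α`);
* `Mahlo β χ`: `χ` is inaccessible and for all `γ < β` the `γ`-Mahlo cardinals are stationary in `χ`.
-/

open Cardinal Ordinal Filter Set Order Pool.Agent.H85.ASC Pool.Agent.H9.ASC

universe u

namespace Pool.Agent.Results.MP_10ded2_lc.SCHFailsOnClub

theorem result (κ : Cardinal.{u}) (h₁ : AlmostSC κ)
    (h₂ : IsLeast {μ : Cardinal.{u} | ℵ₁ ≤ μ ∧ SC ℵ₁ μ} κ) :
    Mahlo κ.ord κ ∧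
    (∀ δ : Cardinal.{u}, ℵ₁ ≤ δ → δ < κ → ∀ (ι : Type u) (T : ι → Set Ordinal.{u}), #ι < δ →
      (∀ i, Stat (T i) κ.ord) → (∀ i, ∀ α ∈ T i, ¬ Uni δ α.cof) →
        Stat {α | ∃ χ : Cardinal.{u}, χ.ord = α ∧ χ.IsInaccessible ∧ ¬ Uni δ χ ∧
          ∀ i, Stat (T i) α} κ.ord) ∧
    (¬ SC κ κ → ¬ IsMeasurable κ ∧
      (∀ W : Ultrafilter κ.ord.ToType, (∀ a, Ioi a ∈ W) → ∀ ρ < κ, ∃ ν, ρ < ν ∧ ν < κ ∧ Dec W ν) ∧
      ∃ C : Set Cardinal.{u}, ClubBelow C κ ∧ ∀ χ ∈ C, χ.IsStrongLimit ∧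
        ∀ o : Ordinal.{u}, ℵ_ o = χ → (χ.IsSingular ∨ ∃ δ < χ, ¬ Uni δ χ) →
          ℵ_ (o + χ.ord) < 2 ^ χ) := by
  have hr := regular_of_hyp h₁ h₂
  refine ⟨mahlo_self h₁ h₂, fun δ hδ hδκ ι T hι hT hTc =>
    reflection_inaccessible h₁ h₂ hδ hδκ hι T hT hTc, fun h₃ => ⟨?_, ?_, ?_⟩⟩
  · rintro ⟨_, V, hV, hn⟩
    exact not_measurable_of_hyp h₁ h₂ h₃ V hV (uniform_of_nonprincipal hr.1 hV hn)
  · intro W hW ρ hρ
    by_contra hcon
    push Not at hcon
    have hτ : succ (max ρ ℵ₀) < κ :=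
      succ_lt_of_hyp h₁ h₂ (max_lt hρ (aleph0_lt_aleph_one.trans h₁.1))
    obtain ⟨V, hV, hV'⟩ := measurable_of_indec hr (fun _ h => two_power_lt_of_hyp h₁ h₂ h) h₁.1 h₁.2
      W hW ((le_max_right _ _).trans (le_succ _)) hτ fun ν h3 h4 =>
        hcon ν (((le_max_left _ _).trans_lt (lt_succ _)).trans_le h3) h4
    exact not_measurable_of_hyp h₁ h₂ h₃ V hV hV'
  · obtain ⟨C, hC, hCp⟩ := exists_club h₁ h₂ h₃
    have h0 : ∀ χ ∈ C, ℵ₀ < χ := fun χ hχ => aleph0_lt_aleph_one.trans (hCp χ hχ).1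
    refine ⟨C, hC, fun χ hχ => ?_⟩
    obtain ⟨h4, h5, h6, h7⟩ := hCp χ hχ
    exact ⟨⟨(aleph0_pos.trans (h0 χ hχ)).ne', fun μ hμ => h5 μ hμ⟩, fun o ho hu =>
      H9.ASC.power_of_club h4 h5 h6 h7 hu ho⟩

end Pool.Agent.Results.MP_10ded2_lc.SCHFailsOnClub
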